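import Pool.Agent.H23VN.Pair

/-!
# The size of the homologically trivial cycles modulo smash-nilpotent ones
-/

set_option autoImplicit false
set_option linter.unusedSectionVars false

open CategoryTheory Limits MonoidalCategory Module Filter Topology
open Pool.Agent.Y112.SR Pool.Agent.Y112.KD Pool.Agent.N64.AF Pool.Agent.H23NC Pool.Agent.H23OB
open scoped ENNReal

namespace Pool.Agent.H23VN

universe v u w

variable {C : Type u} [Category.{v} C] [Preadditive C] [MonoidalCategory C]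
  [MonoidalPreadditive C] [SymmetricCategory C] [RightRigidCategory C] [Linear ℚ C]
  [MonoidalLinear ℚ C] {K : Type w} [Field K] [IsAlgClosed K] [Algebra ℚ K]
  {R : SuperRealisation C K}

/-- The homologically trivial cycles. -/
def hom (hR : IsReal ℚ R) (X : C) : Submodule ℚ (𝟙_ C ⟶ X) := homSub hR (𝟙_ C) X

lemma mem_hom {hR : IsReal ℚ R} {X : C} {x : 𝟙_ C ⟶ X} : x ∈ hom hR X ↔ R.H.map x = 0 := Iff.rfl

lemma hom_stable (hR : IsReal ℚ R) : Cycles.Stable (fun X : C => hom hR X) := by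
  intro X Y z f hz
  rw [mem_hom] at hz ⊢
  rw [R.H.map_comp, hz, zero_comp]

lemma smash_stable : Cycles.Stable (fun X : C => smashSub ℚ X) :=
  fun _ _ _ f hz => SmashNil.comp hz f

/-- The law for the homologically trivial cycles modulo a stable system of smash-nilpotent
cycles. -/
theorem smash_pair (hR : IsReal ℚ R) {B : ∀ X : C, Submodule ℚ (𝟙_ C ⟶ X)}
    (hB : Cycles.Stable B) (hBs : ∀ X : C, B X ≤ smashSub ℚ X) {T : C}
    [ExactPairing T T] (hT : HasUnit T) :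
    ∃ N : ℝ≥0∞, Tendsto (fun n => relShare (hom hR (tp T n)) (B (tp T n))) atTop (𝓝 N) ∧
      (N = 0 ∨ 1 ≤ N) ∧
      (N = 0 ↔ ∀ n, hom hR (tp T n) ≤ B (tp T n)) ∧
      (∀ k : ℕ, N < k + 1 → ∀ (m : ℕ), ∀ x ∈ hom hR (tp T m),
        tpow x (k + 1) ∈ B (tp (tp T m) (k + 1))) ∧
      (N ≠ ⊤ → ∀ n, relDim (hom hR (tp T n)) (B (tp T n)) ≠ ⊤ ∧
        hom hR (tp T n) ≤ smashSub ℚ (tp T n)) := by
  obtain ⟨N, h1, h2, h3, h4, h5⟩ := pair_law hR (A := fun X => hom hR X) (hom_stable hR) hB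
    (fun _ _ hx => numTriv_of_map hR hx) hT
  have h6 : ∀ k : ℕ, N < k + 1 → ∀ (m : ℕ), ∀ x ∈ hom hR (tp T m),
      tpow x (k + 1) ∈ B (tp (tp T m) (k + 1)) := by
    intro k hk m x hx
    by_contra hne
    exact absurd (hk.trans_le (h4 m k x hx hne)) (lt_irrefl _)
  refine ⟨N, h1, h2, h3, h6, fun hN n => ⟨h5 hN n, fun x hx => ?_⟩⟩
  obtain ⟨k, hk⟩ := ENNReal.exists_nat_gt hN
  obtain ⟨j, hj⟩ := hBs _ (h6 k (hk.trans_le le_self_add) n x hx)
  obtain ⟨f, hf⟩ := N690V2.exists_mul x (k + 1) j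
  exact ⟨(k + 1) * j, by rw [← hf, hj, zero_comp]⟩

/-- The zero-infinity law. -/
theorem zero_infty (hR : IsReal ℚ R) {T : C} [ExactPairing T T] (hT : HasUnit T) :
    (∀ n, hom hR (tp T n) ≤ smashSub ℚ (tp T n)) ∨
      Tendsto (fun n => relShare (hom hR (tp T n)) (smashSub ℚ (tp T n))) atTop (𝓝 ⊤) := by
  obtain ⟨N, h1, -, -, -, h5⟩ := smash_pair hR (B := fun X => smashSub ℚ X) smash_stable
    (fun X => le_rfl) hT
  by_cases hN : N = ⊤
  · right
    rw [← hN]
    exact h1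
  · exact Or.inl fun n => (h5 hN n).2

lemma hom_le {hR : IsReal ℚ R} {B : ∀ X : C, Submodule ℚ (𝟙_ C ⟶ X)}
    (hB : Cycles.Stable B) {T : C} (h : hom hR (tp T 1) ≤ B (tp T 1)) : hom hR T ≤ B T := by
  intro z hz
  have h1 : z ≫ (λ_ T).inv ∈ B (tp T 1) := h (hom_stable hR _ _ z (λ_ T).inv hz)
  have h3 : z = (z ≫ (λ_ T).inv) ≫ (λ_ T).hom := by
    rw [Category.assoc, Iso.inv_hom_id, Category.comp_id]
  rw [h3]
  exact hB _ _ _ _ h1

/-- The conjecture of Voevodsky holds if and only if the ratios do not tend to infinity. -/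
theorem voevodsky_iff (hR : IsReal ℚ R)
    (hpair : ∀ X : C, Nonempty (ExactPairing X X)) (hunit : ∀ X : C, HasUnit X) :
    (∀ (X : C) (x : 𝟙_ C ⟶ X), R.H.map x = 0 → SmashNil x) ↔
      ∀ T : C, ∃ c : ℝ≥0∞, c ≠ ⊤ ∧ ∃ᶠ n in atTop,
        relShare (hom hR (tp T n)) (smashSub ℚ (tp T n)) ≤ c := by
  constructor
  · intro h T
    refine ⟨0, by simp, Filter.Frequently.of_forall fun n => ?_⟩
    have h1 : Subsingleton (hom hR (tp T n) ⧸
        (smashSub ℚ (tp T n)).comap (hom hR (tp T n)).subtype) :=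
      subsingleton_pair.2 fun x hx => h _ x hx
    unfold relShare relDim
    rw [dimE_eq, finrank_zero_of_subsingleton]
    simp
  · intro h T x hx
    obtain ⟨_⟩ := hpair T
    rcases zero_infty hR (hunit T) with h1 | h1
    · exact hom_le smash_stable (h1 1) hx
    · exfalso
      obtain ⟨c, hc, hf⟩ := h T
      have h4 := h1.eventually (lt_mem_nhds hc.lt_top)
      obtain ⟨n, h5, h6⟩ := (hf.and_eventually h4).exists
      exact absurd (h6.trans_le h5) (lt_irrefl _)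

end Pool.Agent.H23VN
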