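import Pool.Agent.H23VN.Main

/-!
# The cycles which are generated by one homologically trivial cycle
-/

set_option autoImplicit false
set_option linter.unusedSectionVars false

open CategoryTheory Limits MonoidalCategory Module Filter Topology
open Pool.Agent.Y112.SR Pool.Agent.Y112.KD Pool.Agent.N64.AF Pool.Agent.H23NC Pool.Agent.H23OB
open scoped ENNReal

namespace Pool.Agent.H23VN

universe v u w

section

variable {C : Type u} [Category.{v} C] [Preadditive C] [MonoidalCategory C] [Linear ℚ C]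

/-- The cycles on `Z` which are generated by the cycle `x` on `S`: the images of `x` under all
correspondences from `S` to `Z`. -/
def gen {S : C} (x : 𝟙_ C ⟶ S) (Z : C) : Submodule ℚ (𝟙_ C ⟶ Z) :=
  LinearMap.range (Linear.leftComp ℚ Z x)

lemma mem_gen {S : C} {x : 𝟙_ C ⟶ S} {Z : C} {y : 𝟙_ C ⟶ Z} :
    y ∈ gen x Z ↔ ∃ f : S ⟶ Z, x ≫ f = y := LinearMap.mem_range

lemma self_mem_gen {S : C} (x : 𝟙_ C ⟶ S) : x ∈ gen x S := mem_gen.2 ⟨𝟙 S, Category.comp_id x⟩

lemma gen_le {S : C} {x : 𝟙_ C ⟶ S} {J : ∀ X : C, Submodule ℚ (𝟙_ C ⟶ X)}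
    (hJ : Cycles.Stable J) (hx : x ∈ J S) (Z : C) : gen x Z ≤ J Z := by
  intro y hy
  obtain ⟨f, rfl⟩ := mem_gen.1 hy
  exact hJ _ _ _ f hx

lemma gen_stable {S : C} (x : 𝟙_ C ⟶ S) : Cycles.Stable (gen x) := by
  intro X Y z f hz
  obtain ⟨g, rfl⟩ := mem_gen.1 hz
  exact mem_gen.2 ⟨g ≫ f, (Category.assoc _ _ _).symm⟩

end

variable {C : Type u} [Category.{v} C] [Preadditive C] [MonoidalCategory C]
  [MonoidalPreadditive C] [SymmetricCategory C] [RightRigidCategory C] [Linear ℚ C]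
  [MonoidalLinear ℚ C] {K : Type w} [Field K] [IsAlgClosed K] [Algebra ℚ K]
  {R : SuperRealisation C K}

/-- The law for a stable system of homologically trivial cycles modulo a stable system of
smash-nilpotent cycles. -/
theorem sub_pair (hR : IsReal ℚ R) {A B : ∀ X : C, Submodule ℚ (𝟙_ C ⟶ X)}
    (hA : Cycles.Stable A) (hAh : ∀ X : C, A X ≤ hom hR X)
    (hB : Cycles.Stable B) (hBs : ∀ X : C, B X ≤ smashSub ℚ X) {T : C}
    [ExactPairing T T] (hT : HasUnit T) :
    ∃ N : ℝ≥0∞, Tendsto (fun n => relShare (A (tp T n)) (B (tp T n))) atTop (𝓝 N) ∧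
      (N = 0 ∨ 1 ≤ N) ∧
      (N = 0 ↔ ∀ n, A (tp T n) ≤ B (tp T n)) ∧
      (∀ k : ℕ, N < k + 1 → ∀ (m : ℕ), ∀ x ∈ A (tp T m),
        tpow x (k + 1) ∈ B (tp (tp T m) (k + 1))) ∧
      (N ≠ ⊤ → ∀ n, relDim (A (tp T n)) (B (tp T n)) ≠ ⊤ ∧
        A (tp T n) ≤ smashSub ℚ (tp T n)) := by
  obtain ⟨N, h1, h2, h3, h4, h5⟩ := pair_law hR (A := A) hA hB
    (fun _ _ hx => numTriv_of_map hR (hAh _ hx)) hT
  have h6 : ∀ k : ℕ, N < k + 1 → ∀ (m : ℕ), ∀ x ∈ A (tp T m),
      tpow x (k + 1) ∈ B (tp (tp T m) (k + 1)) := by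
    intro k hk m x hx
    by_contra hne
    exact absurd (hk.trans_le (h4 m k x hx hne)) (lt_irrefl _)
  refine ⟨N, h1, h2, h3, h6, fun hN n => ⟨h5 hN n, fun x hx => ?_⟩⟩
  obtain ⟨k, hk⟩ := ENNReal.exists_nat_gt hN
  obtain ⟨j, hj⟩ := hBs _ (h6 k (hk.trans_le le_self_add) n x hx)
  obtain ⟨f, hf⟩ := N690V2.exists_mul x (k + 1) j
  exact ⟨(k + 1) * j, by rw [← hf, hj, zero_comp]⟩

/-- **One cycle.** A homologically trivial cycle on a power of `T` is smash-nilpotent, or the spaces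
which it generates on the powers of `T` are infinitely larger, modulo smash-nilpotent cycles, than the
spaces of all cycles modulo numerical equivalence. -/
theorem one_cycle (hR : IsReal ℚ R) {T : C} [ExactPairing T T] (hT : HasUnit T) {m : ℕ}
    {x : 𝟙_ C ⟶ tp T m} (hx : x ∈ hom hR (tp T m)) :
    SmashNil x ∨
      Tendsto (fun n => relShare (gen x (tp T n)) (smashSub ℚ (tp T n))) atTop (𝓝 ⊤) := by
  obtain ⟨N, h1, -, -, -, h5⟩ := sub_pair hR (A := gen x) (B := fun X => smashSub ℚ X)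
    (gen_stable x) (gen_le (hom_stable hR) hx) smash_stable (fun X => le_rfl) hT
  by_cases hN : N = ⊤
  · right
    rw [← hN]
    exact h1
  · exact Or.inl ((h5 hN m).2 (self_mem_gen x))

lemma relShare_zero {S : C} {A B : Submodule ℚ (𝟙_ C ⟶ S)} (h : A ≤ B) : relShare A B = 0 := by
  have h1 : Subsingleton (A ⧸ B.comap A.subtype) := subsingleton_pair.2 h
  unfold relShare relDim
  rw [dimE_eq, finrank_zero_of_subsingleton]
  simp

/-- The conjecture of Voevodsky holds if and only if the ratios do not tend to infinity for single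
cycles. -/
theorem voevodsky_iff_one (hR : IsReal ℚ R)
    (hpair : ∀ X : C, Nonempty (ExactPairing X X)) (hunit : ∀ X : C, HasUnit X) :
    (∀ (X : C) (x : 𝟙_ C ⟶ X), R.H.map x = 0 → SmashNil x) ↔
      ∀ (X : C) (x : 𝟙_ C ⟶ X), R.H.map x = 0 → ∃ c : ℝ≥0∞, c ≠ ⊤ ∧ ∃ᶠ n in atTop,
        relShare (gen x (tp X n)) (smashSub ℚ (tp X n)) ≤ c := by
  constructor
  · intro h X x hx
    exact ⟨0, by simp, Filter.Frequently.of_forall fun n =>
      (relShare_zero (gen_le smash_stable (h X x hx) _)).le⟩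
  · intro h T x hx
    obtain ⟨_⟩ := hpair T
    have h0 : x ≫ (λ_ T).inv ∈ hom hR (tp T 1) := hom_stable hR _ _ x (λ_ T).inv hx
    have h2 : ∀ Z : C, gen (x ≫ (λ_ T).inv : 𝟙_ C ⟶ tp T 1) Z = gen x Z := by
      intro Z
      refine le_antisymm (gen_le (gen_stable x) ?_ Z) (gen_le (gen_stable _) ?_ Z)
      · exact mem_gen.2 ⟨(λ_ T).inv, rfl⟩
      · refine mem_gen.2 ⟨(λ_ T).hom, ?_⟩
        change (x ≫ (λ_ T).inv) ≫ (λ_ T).hom = x
        rw [Category.assoc, Iso.inv_hom_id, Category.comp_id]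
    rcases one_cycle hR (hunit T) h0 with h1 | h1
    · have h3 : x = (x ≫ (λ_ T).inv) ≫ (λ_ T).hom := by
        rw [Category.assoc, Iso.inv_hom_id, Category.comp_id]
      rw [h3]
      exact SmashNil.comp h1 _
    · exfalso
      simp only [h2] at h1
      obtain ⟨c, hc, hf⟩ := h T x hx
      have h4 := h1.eventually (lt_mem_nhds hc.lt_top)
      obtain ⟨n, h5, h6⟩ := (hf.and_eventually h4).exists
      exact absurd (h6.trans_le h5) (lt_irrefl _)

end Pool.Agent.H23VN
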