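import Pool.Agent.H23VN.One
import Pool.Agent.H23OB.Main

/-!
# The classes which are generated by one numerically trivial class
-/

set_option autoImplicit false
set_option linter.unusedSectionVars false

open CategoryTheory Limits MonoidalCategory Module Filter Topology
open Pool.Agent.Y112.SR Pool.Agent.Y112.KD Pool.Agent.N64.AF Pool.Agent.H23NC Pool.Agent.H23OB
open scoped ENNReal

namespace Pool.Agent.H23VN

universe v u w

variable {C : Type u} [Category.{v} C] [Preadditive C] [MonoidalCategory C]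
  [MonoidalPreadditive C] [SymmetricCategory C] [RightRigidCategory C] [Linear ℚ C]
  [MonoidalLinear ℚ C] {K : Type w} [Field K] [IsAlgClosed K] [Algebra ℚ K]
  {R : SuperRealisation C K}

lemma numTriv_gen (hR : IsReal ℚ R) {S : C} {x : 𝟙_ C ⟶ S} (hx : NumTriv x) {Z : C}
    {y : 𝟙_ C ⟶ Z} (hy : y ∈ gen x Z) : NumTriv y := by
  obtain ⟨f, rfl⟩ := mem_gen.1 hy
  exact Pool.Agent.N199.AFA3.comp_right hR hx f

/-- The law for the classes which are generated by one numerically trivial class. -/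
theorem one_num (hR : IsReal ℚ R) {T : C} [ExactPairing T T] (hT : HasUnit T) {m : ℕ}
    {x : 𝟙_ C ⟶ tp T m} (hx : NumTriv x) :
    ∃ N : ℝ≥0∞, Tendsto (fun n => share (gen x (tp T n))) atTop (𝓝 N) ∧
      (N = 0 ∨ 1 ≤ N) ∧ (N = 0 ↔ x = 0) ∧ (∀ k : ℕ, N < k + 1 → tpow x (k + 1) = 0) ∧
      (N ≠ ⊤ → (∀ n, Module.Finite ℚ (gen x (tp T n))) ∧
        ∃ (p l : ℕ) (z : Fin l → (𝟙_ C ⟶ tp T p)), (l : ℝ≥0∞) ≤ N ∧
          (∀ i, z i ∈ gen x (tp T p)) ∧ ∀ n, gen x (tp T n) =
            Submodule.span ℚ {y : 𝟙_ C ⟶ tp T n |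
              ∃ (i : Fin l) (c : tp T p ⟶ tp T n), z i ≫ c = y}) := by
  obtain ⟨N, h1, h2, h3, h4, h5⟩ := stable_law hR (J := gen x) (gen_stable x)
    (fun _ _ hy => numTriv_gen hR hx hy) hT
  refine ⟨N, h1, h2, ?_, ?_, h5⟩
  · rw [h3]
    constructor
    · intro h
      have h6 := self_mem_gen x
      rw [h m, Submodule.mem_bot] at h6
      exact h6
    · rintro rfl n
      rw [Submodule.eq_bot_iff]
      intro y hy
      obtain ⟨f, rfl⟩ := mem_gen.1 hy
      exact zero_comp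
  · intro k hk
    by_contra hne
    exact absurd (hk.trans_le (h4 m k x (self_mem_gen x) hne)) (lt_irrefl _)

/-- The dichotomy for one numerically trivial class. -/
theorem one_num_infty (hR : IsReal ℚ R) {T : C} [ExactPairing T T] (hT : HasUnit T) {m : ℕ}
    {x : 𝟙_ C ⟶ tp T m} (hx : NumTriv x) : SmashNil x ∨
      Tendsto (fun n => relShare (gen x (tp T n)) (smashSub ℚ (tp T n))) atTop (𝓝 ⊤) := by
  obtain ⟨N, h1, -, -, h4, -⟩ := pair_law hR (A := gen x) (B := fun X => smashSub ℚ X)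
    (gen_stable x) smash_stable (fun _ _ hy => numTriv_gen hR hx hy) hT
  by_cases hN : N = ⊤
  · right
    rw [← hN]
    exact h1
  · left
    obtain ⟨k, hk⟩ := ENNReal.exists_nat_gt hN
    have h6 : tpow x (k + 1) ∈ smashSub ℚ (tp (tp T m) (k + 1)) := by
      by_contra hne
      exact absurd ((hk.trans_le le_self_add).trans_le (h4 m k x (self_mem_gen x) hne))
        (lt_irrefl _)
    obtain ⟨j, hj⟩ := h6
    obtain ⟨f, hf⟩ := N690V2.exists_mul x (k + 1) j
    exact ⟨(k + 1) * j, by rw [← hf, hj, zero_comp]⟩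

/-- All numerically trivial classes vanish if and only if each of them generates small spaces. -/
theorem no_num_iff (hR : IsReal ℚ R)
    (hs : ∀ X : C, ∃ (T : C) (i : X ⟶ T) (r : T ⟶ X), Nonempty (ExactPairing T T) ∧ HasUnit T ∧
      i ≫ r = 𝟙 X) :
    (∀ (X : C) (x : 𝟙_ C ⟶ X), NumTriv x → x = 0) ↔
      ∀ T : C, Nonempty (ExactPairing T T) → HasUnit T → ∀ x : 𝟙_ C ⟶ T, NumTriv x →
        ∃ c : ℝ≥0∞, c < 1 ∧ ∃ᶠ n in atTop, share (gen x (tp T n)) ≤ c := by
  constructor
  · intro h T _ _ x hx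
    refine ⟨0, zero_lt_one, Filter.Frequently.of_forall fun n => ?_⟩
    have h0 : gen x (tp T n) = ⊥ := by
      rw [Submodule.eq_bot_iff]
      intro y hy
      obtain ⟨f, rfl⟩ := mem_gen.1 hy
      rw [h T x hx, zero_comp]
    have h1 : Subsingleton (gen x (tp T n)) := Submodule.subsingleton_iff_eq_bot.2 h0
    unfold share
    rw [dimE_eq, finrank_zero_of_subsingleton]
    simp
  · intro h X x hx
    obtain ⟨T, i, r, hp, hT, hir⟩ := hs X
    have h0 : NumTriv (x ≫ i) := Pool.Agent.N199.AFA3.comp_right hR hx i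
    have h1 : x ≫ i = 0 := by
      have hTT := hp
      obtain ⟨_⟩ := hp
      have h2 : NumTriv ((x ≫ i) ≫ (λ_ T).inv : 𝟙_ C ⟶ tp T 1) := Pool.Agent.N199.AFA3.comp_right hR h0 _
      have h3 : ∀ Z : C, gen ((x ≫ i) ≫ (λ_ T).inv : 𝟙_ C ⟶ tp T 1) Z = gen (x ≫ i) Z := by
        intro Z
        refine le_antisymm (gen_le (gen_stable _) ?_ Z) (gen_le (gen_stable _) ?_ Z)
        · exact mem_gen.2 ⟨(λ_ T).inv, rfl⟩
        · refine mem_gen.2 ⟨(λ_ T).hom, ?_⟩
          change ((x ≫ i) ≫ (λ_ T).inv) ≫ (λ_ T).hom = x ≫ i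
          rw [Category.assoc, Iso.inv_hom_id, Category.comp_id]
      obtain ⟨N, h4, h5, h6, -, -⟩ := one_num hR hT h2
      rcases h5 with h5 | h5
      · have h7 := h6.1 h5
        have h8 : x ≫ i = ((x ≫ i) ≫ (λ_ T).inv) ≫ (λ_ T).hom := by
          rw [Category.assoc, Iso.inv_hom_id, Category.comp_id]
        rw [h8]
        rw [show (x ≫ i) ≫ (λ_ T).inv = 0 from h7, zero_comp]
      · exfalso
        simp only [h3] at h4
        obtain ⟨c, hc, hf⟩ := h T hTT hT (x ≫ i) h0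
        have h9 := h4.eventually (lt_mem_nhds (hc.trans_le h5))
        obtain ⟨n, h10, h11⟩ := (hf.and_eventually h9).exists
        exact absurd (h11.trans_le h10) (lt_irrefl _)
    have h2 : x = (x ≫ i) ≫ r := by rw [Category.assoc, hir, Category.comp_id]
    rw [h2, h1, zero_comp]

end Pool.Agent.H23VN
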