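import Pool.Agent.H23OB.Law
import Pool.Agent.N64.AF.M6

/-!
# The law for the quotient of two stable systems of cycles
-/

set_option autoImplicit false
set_option linter.unusedSectionVars false

open CategoryTheory Limits MonoidalCategory Module Filter Topology
open Pool.Agent.Y112.SR Pool.Agent.Y112.KD Pool.Agent.N64.AF Pool.Agent.H23NC Pool.Agent.H23OB
open scoped ENNReal

namespace Pool.Agent.H23VN

universe v u w

/-- The dimension of `A / (A ∩ B)`, a natural number or infinity. -/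
noncomputable def relDim {V : Type v} [AddCommGroup V] [Module ℚ V] (A B : Submodule ℚ V) : ℕ∞ :=
  dimE ℚ (A ⧸ B.comap A.subtype)

variable {C : Type u} [Category.{v} C] [Preadditive C] [MonoidalCategory C]
  [MonoidalPreadditive C] [SymmetricCategory C] [RightRigidCategory C] [Linear ℚ C]
  [MonoidalLinear ℚ C] {K : Type w} [Field K] [IsAlgClosed K] [Algebra ℚ K]
  {R : SuperRealisation C K}

/-- The dimension of `A / (A ∩ B)` divided by the rank of the group of all cycles modulo numerical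
equivalence. -/
noncomputable def relShare {S : C} (A B : Submodule ℚ (𝟙_ C ⟶ S)) : ℝ≥0∞ :=
  ((relDim A B : ℕ∞) : ℝ≥0∞) / numRank ℚ S

/-- The functor. -/
lemma isStab_pair {A B : ∀ X : C, Submodule ℚ (𝟙_ C ⟶ X)} (hA : Cycles.Stable A)
    (hB : Cycles.Stable B) : IsStab (sub (homF ℚ (𝟙_ C)) (fun Z : C => A Z) (isStab hA))
      (fun Z => (B Z).comap (A Z).subtype) := by
  intro Y Z f x hx
  change (x : A Y).1 ≫ f ∈ B Z
  exact hB _ _ _ f hx

lemma subsingleton_pair {V : Type v} [AddCommGroup V] [Module ℚ V] {A B : Submodule ℚ V} :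
    Subsingleton (A ⧸ B.comap A.subtype) ↔ A ≤ B := by
  rw [Submodule.Quotient.subsingleton_iff, Submodule.comap_subtype_eq_top]

/-- **The law for the quotient of two stable systems of cycles.** -/
theorem pair_law (hR : IsReal ℚ R) {A B : ∀ X : C, Submodule ℚ (𝟙_ C ⟶ X)}
    (hA : Cycles.Stable A) (hB : Cycles.Stable B) {T : C}
    (hAn : ∀ (n : ℕ), ∀ x ∈ A (tp T n), NumTriv x)
    [ExactPairing T T] (hT : HasUnit T) :
    ∃ N : ℝ≥0∞, Tendsto (fun n => relShare (A (tp T n)) (B (tp T n))) atTop (𝓝 N) ∧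
      (N = 0 ∨ 1 ≤ N) ∧
      (N = 0 ↔ ∀ n, A (tp T n) ≤ B (tp T n)) ∧
      (∀ (m k : ℕ), ∀ x ∈ A (tp T m), tpow x (k + 1) ∉ B (tp (tp T m) (k + 1)) →
        (k : ℝ≥0∞) + 1 ≤ N) ∧
      (N ≠ ⊤ → ∀ n, relDim (A (tp T n)) (B (tp T n)) ≠ ⊤) := by
  obtain ⟨N, h1, h2, h3, h4⟩ := law_functor hR hT
    (quoS (sub (homF ℚ (𝟙_ C)) (fun Z : C => A Z) (isStab hA))
      (fun Z => (B Z).comap (A Z).subtype) (isStab_pair hA hB))
  refine ⟨N, h1, h2, ?_, ?_, ?_⟩
  · rw [h3]
    exact forall_congr' fun n => subsingleton_pair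
  · intro m k x hx hne
    by_contra hlt
    have hN : N ≠ ⊤ := by
      rintro rfl
      exact hlt le_top
    obtain ⟨-, ι, _, e, d, -, -, h5, -, h6, -⟩ := h4 hN
    have h7 : Fintype.card ι ≤ k := by
      by_contra h8
      push Not at h8
      apply hlt
      have h9 : ((k + 1 : ℕ) : ℝ≥0∞) ≤ Fintype.card ι := by exact_mod_cast h8
      push_cast at h9
      exact h9.trans h5
    obtain ⟨b, ⟨j⟩⟩ := N690V2.exists_iso T m (k + 1)
    obtain ⟨g, h8, h9⟩ := tpow_factor hR (hAn m x hx) k b j.hom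
    have h10 := h6 m b g (h8.mono h7)
    have h11 : (Submodule.Quotient.mk (((sub (homF ℚ (𝟙_ C)) (fun Z : C => A Z)
        (isStab hA)).map g).hom (⟨x, hx⟩ : A (tp T m))) :
        A (tp T b) ⧸ (B (tp T b)).comap (A (tp T b)).subtype) = 0 := by
      have h12 := quoS_map_mk (isStab_pair hA hB) g (⟨x, hx⟩ : A (tp T m))
      rw [h10] at h12
      exact h12.symm
    have h13 : x ≫ g ∈ B (tp T b) :=
      (Submodule.Quotient.mk_eq_zero ((B (tp T b)).comap (A (tp T b)).subtype)).1 h11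
    apply hne
    have h14 : tpow x (k + 1) = (tpow x (k + 1) ≫ j.hom) ≫ j.inv := by
      rw [Category.assoc, Iso.hom_inv_id, Category.comp_id]
    rw [h14, h9]
    exact hB _ _ _ _ h13
  · intro hN n
    obtain ⟨hfin, -⟩ := h4 hN
    have h5 : Module.Finite ℚ (A (tp T n) ⧸ (B (tp T n)).comap (A (tp T n)).subtype) :=
      hfin.fin n
    unfold relDim
    rw [dimE_eq]
    exact ENat.natCast_ne_top _

end Pool.Agent.H23VN
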